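import Mathlib
import Pool.Agent.H140R2.FR.CombFinal

/-!
# Zeros of the dichromatic polynomial are dense in the part `4 ≤ q ≤ 4 + 2√2` of `R₃`
-/

set_option autoImplicit false

open Finset Polynomial

namespace Pool.Agent.Results.MP_58ca84_co.DenseInR3

open Pool.Agent.H140R2.FR

theorem result (q v ε : ℝ) (hq : 4 ≤ q) (hq2 : q ≤ 4 + 2 * Real.sqrt 2) (hv : v < -q)
    (hε : 0 < ε) :
    ∃ (V E : Type) (_ : Fintype V) (_ : Fintype E) (ends : E → Sym2 V) (q' v' : ℝ),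
      |q' - q| < ε ∧ |v' - v| < ε ∧
      (q < 4 + 2 * Real.sqrt 2 → (∀ k : ℤ, q ≠ k) → q' = q) ∧
      ∑ A : Finset E,
        q' ^ Nat.card (SimpleGraph.fromEdgeSet (ends '' (A : Set E))).ConnectedComponent
          * v' ^ A.card = 0 := by
  have hs : Real.sqrt 2 ^ 2 = 2 := Real.sq_sqrt (by norm_num)
  have hs0 : 0 < Real.sqrt 2 := Real.sqrt_pos.2 (by norm_num)
  by_cases h : q < 4 + 2 * Real.sqrt 2 ∧ ∀ k : ℤ, q ≠ k
  · have h4 : 4 < q := lt_of_le_of_ne hq (fun h' => h.2 4 (by rw [← h']; norm_num))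
    have hq3 : (q - 2) ^ 2 < 4 * (q - 1) := by nlinarith [h.1]
    obtain ⟨m, _, L, _, hL⟩ := exists_neg_cubic q h4 hq3 (fun n hn => h.2 n hn.symm)
    obtain ⟨V, i1, E, i2, ends, v', e1, _, e3⟩ := zero_near q (by linarith) L hL v ε hv hε
    exact ⟨V, E, i1, i2, ends, q, v', by simpa using hε, e1, fun _ _ => rfl, e3⟩
  · obtain ⟨V, i1, E, i2, ends, q', v', e1, e2, e3⟩ := dichr_zeros_dense q v ε hq hq2 hv hε
    exact ⟨V, E, i1, i2, ends, q', v', e1, e2, fun h1 h2 => absurd ⟨h1, h2⟩ h, e3⟩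

end Pool.Agent.Results.MP_58ca84_co.DenseInR3
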