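import Pool.Agent.H194R2.MZ.Main

/-!
# The zeros of the dichromatic polynomial are dense nowhere in `R_1 ∪ R_2 ∪ R_⋄`

The closure of the set of real zeros `(q, v)` of the dichromatic polynomials of all finite graphs
has Lebesgue measure zero inside `R_1 ∪ R_2 ∪ R_⋄`.
-/

namespace Pool.Agent.Results.MP_58ca84_co.MeasureZero

open Finset Filter Topology MeasureTheory

/-- A finite multigraph (loops and parallel edges allowed) is given by a finite type `V` of
vertices, a finite type `E` of edges and the two ends `en e` of every edge `e`. `comps en A` is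
the number of connected components of the spanning subgraph `(V, A)`: the number of classes of the
equivalence relation on `V` generated by `u ~ v` if some edge in `A` has the ends `u`, `v`. -/
noncomputable def comps {V E : Type} (en : E → V × V) (A : Finset E) : ℕ :=
  Nat.card (Quot fun u v : V => ∃ e ∈ A, en e = (u, v))

/-- The dichromatic polynomial `Z(G; q, v) = ∑_{A ⊆ E} q ^ k(A) v ^ |A|`. -/
noncomputable def Z {V E : Type} [Fintype E] (en : E → V × V) (q v : ℝ) : ℝ :=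
  ∑ A : Finset E, q ^ comps en A * v ^ A.card

/-- The set of all `(q, v)` with `Z(G; q, v) = 0` for some finite graph `G`. -/
def zeros : Set (ℝ × ℝ) :=
  {p | ∃ (V E : Type) (_ : Fintype V) (_ : Fintype E) (en : E → V × V), Z en p.1 p.2 = 0}

/-- `v` is the middle root of `v³ - 2 q v - q² = 0`: a root between two other real roots. -/
def IsMiddleRoot (q v : ℝ) : Prop :=
  v ^ 3 - 2 * q * v - q ^ 2 = 0 ∧ (∃ u < v, u ^ 3 - 2 * q * u - q ^ 2 = 0) ∧
    ∃ u > v, u ^ 3 - 2 * q * u - q ^ 2 = 0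

/-- `R_1`: `q ≤ 0` and `v ∈ [-2, 0] ∪ [-q/2, ∞)` -/
def R1 : Set (ℝ × ℝ) := {p | p.1 ≤ 0 ∧ ((-2 ≤ p.2 ∧ p.2 ≤ 0) ∨ -p.1 / 2 ≤ p.2)}

/-- `R_2`: `q ≥ 0` and `v ≥ 0` -/
def R2 : Set (ℝ × ℝ) := {p | 0 ≤ p.1 ∧ 0 ≤ p.2}

/-- `R_⋄`: `q ∈ (0,1) ∪ (1,32/27)` and `v` lies between `q / w` and `w`, where `w` is the middle
root of `v³ - 2 q v - q² = 0` -/
def RDiamond : Set (ℝ × ℝ) :=
  {p | ((0 < p.1 ∧ p.1 < 1) ∨ (1 < p.1 ∧ p.1 < 32 / 27)) ∧
    ∃ w, IsMiddleRoot p.1 w ∧ p.1 / w ≤ p.2 ∧ p.2 ≤ w}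

theorem zeros_sub : zeros ⊆ Pool.Agent.H194R2.MZ.ZS := by
  classical
  rintro p ⟨V, E, iV, iE, en, h⟩
  refine ⟨V, E, iV, Classical.decEq V, iE, Classical.decEq E, en, univ, ?_⟩
  rw [← h]
  unfold Pool.Agent.H194R2.JS.F Z
  rw [powerset_univ]
  refine sum_congr rfl ?_
  intro A _
  rw [prod_const, empty_union]
  rfl

/-- **The closure of the zero set is a null set inside `R_1 ∪ R_2 ∪ R_⋄`.** -/
theorem result : volume (closure zeros ∩ (R1 ∪ R2 ∪ RDiamond)) = 0 := by
  refine measure_mono_null ?_ Pool.Agent.H194R2.MZ.main_null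
  exact Set.inter_subset_inter (closure_mono zeros_sub) (fun _ h => h)

end Pool.Agent.Results.MP_58ca84_co.MeasureZero
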