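import Mathlib
import Pool.Agent.H753R2.FR.T_F1

/-!
# The zeros of the dichromatic polynomial are not dense in `R₃`

For all sufficiently large real `q` and all `v < -q` one has `(-1)^|E| Z(G;q,v) > 0` for every graph
`G`.  Hence `R₃` is not contained in the closure of the zero set: Q1 is disproved.
-/

set_option autoImplicit false

open Finset

namespace Pool.Agent.Results.MP_58ca84_co.NotDenseInR3

/-- The dichromatic polynomial `Z(G;q,v) = ∑_{A ⊆ E} q^{k(A)} v^{|A|}` of the multigraph with vertex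
set `Fin n` and edges `Fin k`, the ends of the edge `e` being the two entries of `ends e` (loops and
parallel edges are allowed); `k(A)` is the number of connected components of the spanning subgraph
with edge set `A`. -/
noncomputable def Z {n k : ℕ} (ends : Fin k → Fin n × Fin n) (q v : ℝ) : ℝ :=
  ∑ A ∈ (Finset.univ : Finset (Fin k)).powerset,
    q ^ Nat.card (SimpleGraph.fromRel
      (fun a b : Fin n => ∃ f ∈ A, ends f = (a, b))).ConnectedComponent * v ^ A.card

/-- The set of the pairs `(q, v)` with `Z(G;q,v) = 0` for some graph `G`. -/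
def zeroSet : Set (ℝ × ℝ) :=
  {p | ∃ (n k : ℕ) (ends : Fin k → Fin n × Fin n), Z ends p.1 p.2 = 0}

/-- The region `R₃ = {(q, v) : q ≥ 4, v < -q}`. -/
def R3 : Set (ℝ × ℝ) := {p | 4 ≤ p.1 ∧ p.2 < -p.1}

/-- There is a real `C` such that `(-1)^|E| Z(G;q,v) > 0` for all reals `q ≥ C`, `v < -q` and every
finite graph `G`; and `R₃` is not contained in the closure of the zero set. -/
theorem result :
    (∃ C : ℝ, ∀ q v : ℝ, C ≤ q → v < -q → ∀ (n k : ℕ) (ends : Fin k → Fin n × Fin n),
      0 < (-1) ^ k * Z ends q v) ∧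
    ¬ R3 ⊆ closure zeroSet := by
  have h : ∃ C : ℝ, ∀ q v : ℝ, C ≤ q → v < -q → ∀ (n k : ℕ) (ends : Fin k → Fin n × Fin n),
      0 < (-1) ^ k * Z ends q v := by
    obtain ⟨C, hC, h⟩ := Pool.Agent.H753R2.FR.F1.dichr_pos
    refine ⟨C, ?_⟩
    intro q v hq hv n k ends
    have h1 := h q v hq hv n k (Pool.Agent.H753R2.FR.D6b.gr ends)
    unfold Z
    simp only [Pool.Agent.H753R2.FR.D6b.cl_conn_eq]
    exact h1
  refine ⟨h, ?_⟩
  obtain ⟨C, hC⟩ := h
  intro hsub
  -- the point (max C 4 + 1, -(max C 4 + 3))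
  set M : ℝ := max C 4 with hM
  have hCM : C ≤ M := le_max_left _ _
  have h4M : 4 ≤ M := le_max_right _ _
  have hp : ((M + 1, -(M + 3)) : ℝ × ℝ) ∈ R3 := by
    constructor
    · show 4 ≤ M + 1; linarith
    · show -(M + 3) < -(M + 1); linarith
  have hcl := hsub hp
  rw [Metric.mem_closure_iff] at hcl
  obtain ⟨b, hb, hd⟩ := hcl 1 one_pos
  obtain ⟨n, k, ends, hz⟩ := hb
  rw [Prod.dist_eq, max_lt_iff, Real.dist_eq, Real.dist_eq] at hd
  have h1 := abs_lt.mp hd.1
  have h2 := abs_lt.mp hd.2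
  simp only at h1 h2
  have h3 := hC b.1 b.2 (by linarith) (by linarith) n k ends
  rw [hz] at h3
  simp at h3

end Pool.Agent.Results.MP_58ca84_co.NotDenseInR3
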